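import Pool.Agent.CW.Final

/-!
# `(q, q-2)`-graphs have bounded clique-width for `q ≥ 8`

The definition of `(q, t)`-graphs used here is the one of the problem file: only sets of exactly
`q` vertices are inspected.
-/

set_option autoImplicit false

open SimpleGraph

namespace Pool.Agent.Results.MP_563ce7_co.QSets

/-- `Value k W G l`: the graph `G` on `W` with the vertex labels `l : W → Fin k` is the value of
a clique-width expression with labels in `Fin k`. -/
inductive Value (k : ℕ) : (W : Type) → SimpleGraph W → (W → Fin k) → Prop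
  /-- the empty graph -/
  | empty : Value k PEmpty ⊥ PEmpty.elim
  /-- a single vertex with label `i` -/
  | single (i : Fin k) : Value k Unit ⊥ (fun _ => i)
  /-- disjoint union -/
  | union {W₁ W₂ : Type} {G₁ : SimpleGraph W₁} {G₂ : SimpleGraph W₂} {l₁ : W₁ → Fin k}
      {l₂ : W₂ → Fin k} : Value k W₁ G₁ l₁ → Value k W₂ G₂ l₂ →
      Value k (W₁ ⊕ W₂) (G₁.map Function.Embedding.inl ⊔ G₂.map Function.Embedding.inr)
        (Sum.elim l₁ l₂)
  /-- add every edge between a vertex labelled `i` and a vertex labelled `j`, where `i ≠ j` -/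
  | join {W : Type} {H : SimpleGraph W} {l : W → Fin k} (i j : Fin k) : i ≠ j → Value k W H l →
      Value k W (H ⊔ SimpleGraph.fromRel (fun x y => l x = i ∧ l y = j)) l
  /-- relabel every vertex with label `i` to label `j` -/
  | relabel {W : Type} {H : SimpleGraph W} {l : W → Fin k} (i j : Fin k) : Value k W H l →
      Value k W H (fun x => if l x = i then j else l x)
  /-- renaming the vertices -/
  | iso {W W' : Type} {H : SimpleGraph W} {l : W → Fin k} (e : W ≃ W') : Value k W H l →
      Value k W' (H.map e.toEmbedding) (l ∘ e.symm)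

/-- The clique-width of `G` is at most `k`. -/
def CliqueWidthLE (k : ℕ) {V : Type} (G : SimpleGraph V) : Prop :=
  ∃ l : V → Fin k, Value k V G l

/-- `(q, t)`-graphs: every set of (exactly) `q` vertices contains at most `t` sets `A` of four
vertices inducing a path on four vertices. -/
def IsQT (q t : ℕ) {V : Type} (G : SimpleGraph V) : Prop :=
  ∀ S : Finset V, S.card = q →
    {A : Finset V | A ⊆ S ∧ A.card = 4 ∧
      Nonempty (G.induce (A : Set V) ≃g SimpleGraph.pathGraph 4)}.ncard ≤ t

theorem value_of_built {k : ℕ} {V : Type} {G : SimpleGraph V} {l : V → Fin k}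
    (h : Pool.Agent.CW.Built k V G l) : Value k V G l :=
  h (fun W G l => Value k W G l) Value.empty Value.single
    (fun _ _ _ _ _ _ h1 h2 => Value.union h1 h2) (fun _ _ _ _ e h => Value.iso e h)
    (fun _ _ _ i j h => Value.relabel i j h) (fun _ _ _ i j hij h => Value.join i j hij h)

/-- For every `q ≥ 8` the class of `(q, q-2)`-graphs has bounded clique-width. -/
theorem result (q : ℕ) (hq : 8 ≤ q) :
    ∃ c : ℕ, ∀ (V : Type) [Finite V] (G : SimpleGraph V), IsQT q (q - 2) G →
      CliqueWidthLE c G := by
  classical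
  obtain ⟨k, hk⟩ := Pool.Agent.CW.main q hq
  refine ⟨max k (3 * (1 + q)), ?_⟩
  intro V _ G hG
  have := Fintype.ofFinite V
  have key : Helper27.CW.HasCW (max k (3 * (1 + q))) V G := by
    rcases Nat.lt_or_ge (Nat.card V) q with hV | hV
    · exact (Helper27.CW.hasCW_of_card G q (le_of_lt hV)).mono (le_max_right _ _)
    · have hQ : Helper27.CW.QC q V G := by
        intro S hS
        obtain ⟨T, hST, hT⟩ := Finset.exists_superset_card_eq hS
          (by rw [← Nat.card_eq_fintype_card]; exact hV)
        refine le_trans (Set.ncard_le_ncard ?_ (Set.toFinite _)) (hG T hT)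
        rintro A ⟨h1, h2⟩
        exact ⟨h1.trans hST, h2⟩
      obtain ⟨l, hl⟩ := hk V G hQ
      have h27 : Helper27.CW.HasCW k V G :=
        ⟨l, hl (fun W G l => Helper27.CW.Built (Fin k) W G l) Helper27.CW.Built.empty
          Helper27.CW.Built.single
          (fun _ _ _ _ _ _ h1 h2 => Helper27.CW.Built.union _ _ _ _ _ _ h1 h2)
          (fun _ _ _ _ e h => Helper27.CW.Built.iso _ _ _ _ e h)
          (fun _ _ _ i j h => Helper27.CW.Built.relabel _ _ _ i j h)
          (fun _ _ _ i j hij h => Helper27.CW.Built.join _ _ _ i j hij h)⟩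
      exact h27.mono (le_max_left _ _)
  obtain ⟨l, hl⟩ := key.frozen
  exact ⟨l, value_of_built hl⟩

end Pool.Agent.Results.MP_563ce7_co.QSets
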